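import Mathlib

/-!
# OPP (MP_a0dfcb_an): the modules NUM and COVER
Number facts (N1), (N2), (N3) of the plan, and the finite cover of the unit sphere by the sets where
the scalar product with a centre has modulus at least `4 / 5`.
-/

set_option autoImplicit false

namespace Pool.OPP

open Finset

/-! ### NUM -/

/-- the number of the indices of type `w` in the base block; `W = Fin h` -/
def nw (h w : ℕ) : ℕ := 6 * ((h + 1) ^ (h + 1) + (h + 1) ^ w)

/-- the number of the central indices -/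
def kap (h : ℕ) : ℕ := 6 * (h + 1) ^ (h + 2) + 3

theorem NUM_geom (h : ℕ) : ∑ w : Fin h, (h + 1) ^ (w : ℕ) < (h + 1) ^ h ∨ h = 0 := by
  rcases Nat.eq_zero_or_pos h with h0 | h0
  · exact Or.inr h0
  · left
    rw [Fin.sum_univ_eq_sum_range (fun i => (h + 1) ^ i) h]
    exact Nat.geomSum_lt (by omega) (fun k hk => Finset.mem_range.mp hk)

theorem NUM_geom' (h : ℕ) : ∑ w : Fin h, (h + 1) ^ (w : ℕ) < (h + 1) ^ (h + 1) := by
  rcases NUM_geom h with h1 | h1
  · exact h1.trans_le (Nat.pow_le_pow_right (by omega) (by omega))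
  · subst h1; simp

theorem nw_pos (h w : ℕ) : 0 < nw h w := by
  unfold nw; positivity

theorem three_dvd_nw (h w : ℕ) : 3 ∣ nw h w := by
  unfold nw
  exact Dvd.dvd.mul_right (by norm_num) _

theorem three_dvd_kap (h : ℕ) : 3 ∣ kap h := by
  unfold kap
  exact dvd_add (Dvd.dvd.mul_right (by norm_num) _) (dvd_refl 3)

theorem six_dvd_nw (h w : ℕ) : 6 ∣ nw h w := by
  unfold nw
  exact Dvd.intro _ rfl

theorem sum_nw (h : ℕ) : ∑ w : Fin h, nw h w =
    6 * (h * (h + 1) ^ (h + 1) + ∑ w : Fin h, (h + 1) ^ (w : ℕ)) := by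
  unfold nw
  rw [← mul_sum, sum_add_distrib]
  simp

theorem sum_nw_lt_kap (h : ℕ) : ∑ w : Fin h, nw h w + 2 < kap h := by
  rw [sum_nw]
  unfold kap
  have h1 := NUM_geom' h
  have h2 : (h + 1) ^ (h + 2) = h * (h + 1) ^ (h + 1) + (h + 1) ^ (h + 1) := by ring
  rw [h2]
  omega

theorem nw_lt_kap (h : ℕ) (w : Fin h) : nw h w + 2 < kap h := by
  have h1 : nw h w ≤ ∑ w : Fin h, nw h w :=
    single_le_sum (f := fun w : Fin h => nw h w) (fun _ _ => Nat.zero_le _) (mem_univ w)
  have h2 := sum_nw_lt_kap h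
  omega

/-- digits in base `b` are unique -/
theorem NUM_digits (b : ℕ) (hb : 1 < b) : ∀ (h : ℕ) (d : Fin h → ℕ), (∀ w, d w < b) →
    ∑ w : Fin h, b ^ (w : ℕ) * d w = ∑ w : Fin h, b ^ (w : ℕ) → ∀ w, d w = 1 := by
  intro h
  induction h with
  | zero => intro d _ _ w; exact w.elim0
  | succ h ih =>
    intro d hd hs
    rw [Fin.sum_univ_succ, Fin.sum_univ_succ] at hs
    simp only [Fin.val_zero, pow_zero, one_mul, Fin.val_succ, pow_succ] at hs
    have e1 : ∑ w : Fin h, b ^ (w : ℕ) * b * d w.succ =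
        b * ∑ w : Fin h, b ^ (w : ℕ) * d w.succ := by
      rw [mul_sum]
      exact sum_congr rfl fun w _ => by ring
    have e2 : ∑ w : Fin h, b ^ (w : ℕ) * b = b * ∑ w : Fin h, b ^ (w : ℕ) := by
      rw [mul_sum]
      exact sum_congr rfl fun w _ => by ring
    rw [e1, e2] at hs
    have hm := congrArg (· % b) hs
    simp only [Nat.add_mul_mod_self_left] at hm
    rw [Nat.mod_eq_of_lt (hd 0), Nat.mod_eq_of_lt hb] at hm
    rw [hm] at hs
    have hs2 : b * ∑ w : Fin h, b ^ (w : ℕ) * d w.succ = b * ∑ w : Fin h, b ^ (w : ℕ) := by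
      omega
    have hs3 := Nat.eq_of_mul_eq_mul_left (by omega) hs2
    have := ih (fun w => d w.succ) (fun w => hd w.succ) hs3
    intro w
    refine Fin.cases hm (fun i => this i) w

/-- (N1) -/
theorem num1 (h dC : ℕ) (d : Fin h → ℕ)
    (H : kap h * dC + ∑ w : Fin h, nw h w * d w = kap h + ∑ w : Fin h, nw h w) :
    dC = 1 ∧ ∀ w, d w = 1 := by
  have hk := sum_nw_lt_kap h
  have h6 : 6 ∣ ∑ w : Fin h, nw h w * d w :=
    dvd_sum fun w _ => (six_dvd_nw h w).mul_right _
  have h6' : 6 ∣ ∑ w : Fin h, nw h w := dvd_sum fun w _ => six_dvd_nw h w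
  have hC : dC = 1 := by
    have h2 : dC < 2 := by
      by_contra hcon
      have : kap h * 2 ≤ kap h * dC := Nat.mul_le_mul_left _ (by omega)
      omega
    have h0 : dC ≠ 0 := by
      intro h0
      rw [h0, mul_zero, zero_add] at H
      have hk6 : kap h % 6 = 3 := by
        unfold kap; omega
      omega
    omega
  refine ⟨hC, ?_⟩
  rw [hC, mul_one] at H
  have H1 : ∑ w : Fin h, nw h w * d w = ∑ w : Fin h, nw h w := by omega
  rw [sum_nw] at H1
  set b := h + 1 with hb
  set M := b ^ (h + 1) with hM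
  set D := ∑ w : Fin h, d w with hD
  have e1 : ∑ w : Fin h, nw h w * d w = 6 * (M * D + ∑ w : Fin h, b ^ (w : ℕ) * d w) := by
    unfold nw
    rw [← hb, ← hM, hD, mul_sum, ← sum_add_distrib, mul_sum]
    exact sum_congr rfl fun w _ => by ring
  rw [e1] at H1
  have H2 : M * D + ∑ w : Fin h, b ^ (w : ℕ) * d w = h * M + ∑ w : Fin h, b ^ (w : ℕ) := by
    omega
  have hg : ∑ w : Fin h, b ^ (w : ℕ) < M := NUM_geom' h
  rcases Nat.eq_zero_or_pos h with h0 | h0
  · intro w
    exact absurd w.2 (by omega)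
  have hdle : ∀ w, d w ≤ D := fun w =>
    single_le_sum (f := fun w : Fin h => d w) (fun _ _ => Nat.zero_le _) (mem_univ w)
  have hDh : D = h := by
    rcases lt_trichotomy D h with hlt | heq | hgt
    · exfalso
      have u1 : ∑ w : Fin h, b ^ (w : ℕ) * d w ≤ b ^ h * D := by
        rw [hD, mul_sum]
        refine sum_le_sum fun w _ => Nat.mul_le_mul_right _ ?_
        exact Nat.pow_le_pow_right (by omega) (by omega)
      have u2 : b ^ h * D ≤ M := by
        rw [hM, pow_succ]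
        exact Nat.mul_le_mul_left _ (by omega)
      have u3 : M * D + M ≤ h * M := by
        calc M * D + M = M * (D + 1) := by ring
          _ ≤ M * h := Nat.mul_le_mul_left _ hlt
          _ = h * M := mul_comm _ _
      have u4 : 0 < ∑ w : Fin h, b ^ (w : ℕ) := by
        refine sum_pos (fun w _ => by positivity) ⟨⟨0, h0⟩, mem_univ _⟩
      omega
    · exact heq
    · exfalso
      have u3 : h * M + M ≤ M * D := by
        calc h * M + M = M * (h + 1) := by ring
          _ ≤ M * D := Nat.mul_le_mul_left _ hgt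
      omega
  rw [hDh] at H2
  have H3 : ∑ w : Fin h, b ^ (w : ℕ) * d w = ∑ w : Fin h, b ^ (w : ℕ) := by
    have : M * h = h * M := mul_comm _ _
    omega
  exact NUM_digits b (by omega) h d (fun w => by have := hdle w; omega) H3

/-- (N2) -/
theorem num2 (h : ℕ) (w : Fin h) (T : Finset (Fin h)) (H : nw h w = ∑ v ∈ T, nw h v) :
    T = {w} := by
  have hb : 1 < h + 1 := by have := w.2; omega
  have hwM : (h + 1) ^ (w : ℕ) < (h + 1) ^ (h + 1) :=
    Nat.pow_lt_pow_right hb (by have := w.2; omega)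
  have hlow : T.card * (6 * (h + 1) ^ (h + 1)) ≤ ∑ v ∈ T, nw h v := by
    rw [← smul_eq_mul]
    refine card_nsmul_le_sum _ _ _ fun v _ => ?_
    unfold nw; omega
  have hT1 : T.card ≤ 1 := by
    by_contra hcon
    have : 2 * (6 * (h + 1) ^ (h + 1)) ≤ T.card * (6 * (h + 1) ^ (h + 1)) :=
      Nat.mul_le_mul_right _ (by omega)
    rw [← H] at hlow
    unfold nw at hlow
    omega
  have hT0 : T.card ≠ 0 := by
    intro h0
    rw [card_eq_zero] at h0
    rw [h0, sum_empty] at H
    have := nw_pos h w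
    omega
  obtain ⟨v, hv⟩ := card_eq_one.mp (show T.card = 1 by omega)
  rw [hv, sum_singleton] at H
  unfold nw at H
  have hp : (h + 1) ^ (w : ℕ) = (h + 1) ^ (v : ℕ) := by omega
  have := Nat.pow_right_injective (show 2 ≤ h + 1 by omega) hp
  rw [hv]
  congr 1
  exact (Fin.ext this).symm

/-! ### COVER -/

/-- finitely many centres are enough -/
theorem cover (N : ℕ) : ∃ (h : ℕ) (c : Fin h → EuclideanSpace ℂ (Fin N)), (∀ w, ‖c w‖ = 1) ∧
    ∀ y : EuclideanSpace ℂ (Fin N), ‖y‖ = 1 → ∃ w, 4 / 5 ≤ ‖inner ℂ y (c w)‖ := by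
  have hc : IsCompact (Metric.sphere (0 : EuclideanSpace ℂ (Fin N)) 1) := isCompact_sphere 0 1
  obtain ⟨t, ht⟩ := hc.elim_finite_subcover
    (fun c : Metric.sphere (0 : EuclideanSpace ℂ (Fin N)) 1 =>
      {y : EuclideanSpace ℂ (Fin N) | 4 / 5 < ‖inner ℂ y (c : EuclideanSpace ℂ (Fin N))‖})
    (fun c => isOpen_lt continuous_const (by fun_prop)) (by
      intro y hy
      rw [Set.mem_iUnion]
      refine ⟨⟨y, hy⟩, ?_⟩
      have hy1 : ‖y‖ = 1 := by simpa using hy
      show 4 / 5 < ‖inner ℂ y y‖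
      rw [inner_self_eq_norm_sq_to_K, hy1]
      norm_num)
  refine ⟨t.card, fun i => ((t.equivFin.symm i).1).1, fun w => ?_, fun y hy => ?_⟩
  · simp
  · have h1 := ht (show y ∈ Metric.sphere (0 : EuclideanSpace ℂ (Fin N)) 1 by simpa using hy)
    simp only [Set.mem_iUnion] at h1
    obtain ⟨c, hct, hcy⟩ := h1
    refine ⟨t.equivFin ⟨c, hct⟩, ?_⟩
    simp only [Equiv.symm_apply_apply]
    exact le_of_lt hcy

/-- two unit vectors close to the same line are not orthogonal -/
theorem angle {E : Type*} [NormedAddCommGroup E] [InnerProductSpace ℂ E] (x y c : E)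
    (hx : ‖x‖ = 1) (hy : ‖y‖ = 1) (hc : ‖c‖ = 1) (h1 : 4 / 5 ≤ ‖inner ℂ x c‖)
    (h2 : 4 / 5 ≤ ‖inner ℂ y c‖) : 7 / 25 ≤ ‖inner ℂ x y‖ := by
  have hcc : inner ℂ c c = (1 : ℂ) := by rw [inner_self_eq_norm_sq_to_K, hc]; simp
  have key : ∀ z : E, ‖z‖ = 1 → 4 / 5 ≤ ‖inner ℂ z c‖ →
      ‖z - (inner ℂ c z) • c‖ ≤ 3 / 5 := by
    intro z hz hzc
    have e1 : ‖z - (inner ℂ c z) • c‖ ^ 2 = 1 - ‖inner ℂ z c‖ ^ 2 := by
      have e2 : inner ℂ (z - (inner ℂ c z) • c) (z - (inner ℂ c z) • c) =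
          ((1 - ‖inner ℂ z c‖ ^ 2 : ℝ) : ℂ) := by
        rw [inner_sub_left, inner_sub_right, inner_sub_right, inner_smul_left, inner_smul_right,
          inner_smul_left, inner_smul_right, hcc, inner_self_eq_norm_sq_to_K, hz]
        have e3 : (starRingEnd ℂ) (inner ℂ c z) = inner ℂ z c := inner_conj_symm _ _
        rw [e3]
        have e4 : inner ℂ c z * inner ℂ z c = ((‖inner ℂ z c‖ ^ 2 : ℝ) : ℂ) := by
          rw [← e3, mul_comm, ← Complex.normSq_eq_conj_mul_self, Complex.normSq_eq_norm_sq, e3,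
            ← norm_inner_symm]
        push_cast at e4 ⊢
        rw [← e4]
        ring
      rw [inner_self_eq_norm_sq_to_K] at e2
      have e5 := congrArg Complex.re e2
      rw [Complex.ofReal_re] at e5
      rw [← e5]
      simp [← Complex.ofReal_pow]
    have : ‖z - (inner ℂ c z) • c‖ ^ 2 ≤ (3 / 5) ^ 2 := by
      rw [e1]; nlinarith
    exact le_of_sq_le_sq this (by norm_num)
  have k1 := key x hx h1
  have k2 := key y hy h2
  have e : inner ℂ x y = inner ℂ x c * inner ℂ c y +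
      inner ℂ (x - (inner ℂ c x) • c) (y - (inner ℂ c y) • c) := by
    rw [inner_sub_left, inner_sub_right, inner_sub_right, inner_smul_left, inner_smul_right,
      inner_smul_left, inner_smul_right, hcc]
    have e3 : (starRingEnd ℂ) (inner ℂ c x) = inner ℂ x c := inner_conj_symm _ _
    rw [e3]
    ring
  have b1 : ‖inner ℂ (x - (inner ℂ c x) • c) (y - (inner ℂ c y) • c)‖ ≤ 3 / 5 * (3 / 5) :=
    (norm_inner_le_norm _ _).trans (mul_le_mul k1 k2 (norm_nonneg _) (by norm_num))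
  have b2 : 4 / 5 * (4 / 5) ≤ ‖inner ℂ x c * inner ℂ c y‖ := by
    rw [norm_mul, ← norm_inner_symm y c]
    exact mul_le_mul h1 h2 (by norm_num) (norm_nonneg _)
  rw [e]
  have b3 := norm_sub_le_norm_add (inner ℂ x c * inner ℂ c y)
    (inner ℂ (x - (inner ℂ c x) • c) (y - (inner ℂ c y) • c))
  linarith

end Pool.OPP
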