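import Pool.Agent.H7.OPP.Stmts

/-!
# OPP, module RR1: dependence of the representations on the point
-/

set_option autoImplicit false

open scoped Topology ComplexConjugate Uniformity

namespace Pool.OPP

noncomputable section

theorem RR1_mc_sub (f g : BH) (s t : JI) : mc (f - g) s t = mc f s t - mc g s t := by
  unfold mc
  rw [sub_apply]
  rfl

theorem RR1_mc_cont (hD : SDia) (s t : JI) : Continuous fun f : BH => mc f s t := by
  obtain ⟨-, -, -, -, -, -, -, -, -, -, hn, -⟩ := hD
  refine Metric.continuous_iff.mpr fun f ε hε => ⟨ε, hε, fun g hg => ?_⟩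
  rw [dist_eq_norm] at hg ⊢
  rw [← RR1_mc_sub]
  exact (hn _ _ _).trans_lt hg

theorem RR1_pu (hD : SDia) (γ : ℕ → ZMod 3) : PP 0 * UU γ = UU γ * PP 0 := by
  obtain ⟨hU, -, hP, -⟩ := hD
  refine ContinuousLinearMap.ext fun ξ => ?_
  refine lp.ext (funext fun v => ?_)
  show (PP 0 (UU γ ξ) : JI → ℂ) v = (UU γ (PP 0 ξ) : JI → ℂ) v
  rw [hP, hU, hU, hP]
  split_ifs <;> simp

theorem sRr1 (hTh : STh) (hQ : SQeq) (hGen : SGen) (hD : SDia) : SRr1 := by
  intro θ
  obtain ⟨hth, -⟩ := hTh θ
  have hcont : ∀ f : BB, Continuous fun x => f x := fun f => f.continuous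
  have hgen : ∀ g : Gx, gen g ∈ AA := fun g => (hGen.1 g).2
  have hP := hD.2.2.2.2.2.1 0
  refine ⟨fun b _ i j => ?_, fun b hb γ x i j => ?_, ?_, fun γ x hx g => ?_,
    fun b hb w x hx i j hij => ?_⟩
  · exact (RR1_mc_cont hD (j, ∅) (i, ∅)).comp (hcont (θ.th b))
  · unfold RR
    rw [hQ.1 _ (hth b hb).1 γ x]
    obtain ⟨-, -, -, -, -, -, hm, -⟩ := hD
    rw [hm]
    ring
  · have : Zst θ = ⋂ g : Gx, {x | PP 0 * θ.th (gen g) x = θ.th (gen g) x * PP 0} := by
      ext x
      simp only [Zst, Set.mem_iInter]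
      rfl
    rw [this]
    refine isClosed_iInter fun g => isClosed_eq ?_ ?_
    · exact continuous_const.mul (hcont _)
    · exact (hcont _).mul continuous_const
  · have h1 := hQ.1 _ (hth _ (hgen g)).1 γ x
    have h2 := RR1_pu hD γ
    have h3 : PP 0 * star (UU γ) = star (UU γ) * PP 0 := by
      have := congrArg star h2
      rw [star_mul, star_mul, hP.1] at this
      exact this.symm
    have h4 := hx g
    rw [h1]
    calc PP 0 * (UU γ * θ.th (gen g) x * star (UU γ)) =
        (PP 0 * UU γ) * θ.th (gen g) x * star (UU γ) := by simp only [mul_assoc]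
      _ = UU γ * (PP 0 * θ.th (gen g) x) * star (UU γ) := by rw [h2]; simp only [mul_assoc]
      _ = UU γ * θ.th (gen g) x * (PP 0 * star (UU γ)) := by rw [h4]; simp only [mul_assoc]
      _ = _ := by rw [h3]; simp only [mul_assoc]
  · have h1 := hQ.2 _ (hth b hb).1 w x hx
    obtain ⟨-, -, -, -, -, -, -, hq, -⟩ := hD
    have h2 := hq (θ.th b x) w.succ (j, ∅) (i, ∅)
    rw [h1, h2.2] at h2
    have ht : ∀ k : II, typ (k, ∅) = k.1 := fun k => by unfold typ; simp
    have h3 := h2.1
    rw [ht, ht] at h3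
    unfold RR
    by_cases hi : i.1 = w.succ
    · have hj : ¬ j.1 = w.succ := fun hj => hij ⟨fun _ => hj, fun _ => hi⟩
      rw [if_pos hi, if_neg hj] at h3
      exact h3
    · by_cases hj : j.1 = w.succ
      · rw [if_neg hi, if_pos hj] at h3
        exact h3.symm
      · exact absurd ⟨fun h => absurd h hi, fun h => absurd h hj⟩ hij

end

end Pool.OPP
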