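import Pool.Agent.H7.OPP.Stmts

/-!
# OPP, module VUN: the matrix of a frame is unitary
-/

set_option autoImplicit false

open scoped Topology ComplexConjugate Uniformity

namespace Pool.OPP

noncomputable section

theorem VUN_ip_eq (ξ η : II → ℂ) : ip ξ η = star ξ ⬝ᵥ η := rfl

theorem VUN_ip (M : Matrix II II ℂ) (ξ η : II → ℂ) :
    ip (M.mulVec ξ) η = ip ξ ((star M).mulVec η) := by
  rw [VUN_ip_eq, VUN_ip_eq, Matrix.star_mulVec, Matrix.dotProduct_mulVec]
  rfl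

theorem VUN_ip_smul (ξ η : II → ℂ) (c : ℂ) : ip ξ (c • η) = c * ip ξ η := by
  rw [VUN_ip_eq, VUN_ip_eq, dotProduct_smul, smul_eq_mul]

theorem VUN_ip_smul' (ξ η : II → ℂ) (c : ℂ) : ip (c • ξ) η = conj c * ip ξ η := by
  rw [VUN_ip_eq, VUN_ip_eq, star_smul, smul_dotProduct, smul_eq_mul]
  rfl

theorem VUN_ip_sum {κ : Type*} (s : Finset κ) (ξ : II → ℂ) (η : κ → II → ℂ) :
    ip ξ (∑ k ∈ s, η k) = ∑ k ∈ s, ip ξ (η k) := by
  simp only [VUN_ip_eq, dotProduct_sum]

theorem VUN_ip_sum' {κ : Type*} (s : Finset κ) (ξ : κ → II → ℂ) (η : II → ℂ) :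
    ip (∑ k ∈ s, ξ k) η = ∑ k ∈ s, ip (ξ k) η := by
  simp only [VUN_ip_eq, star_sum, sum_dotProduct]

theorem VUN_ip_zero (ξ : II → ℂ) : ip ξ 0 = 0 := by
  rw [VUN_ip_eq, dotProduct_zero]

theorem VUN_ip_conj (ξ η : II → ℂ) : conj (ip ξ η) = ip η ξ := by
  unfold ip
  rw [map_sum]
  refine Finset.sum_congr rfl fun i _ => ?_
  rw [map_mul, Complex.conj_conj, mul_comm]

/-- scalar products of images under the representation -/
theorem VUN_rep (h0 : SRr0) (θ : Anti) (x : SS) (a b : BB) (ha : Cm θ x a) (hb : Cm θ x b)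
    (ξ η : II → ℂ) :
    ip ((RR θ x a).mulVec ξ) ((RR θ x b).mulVec η) = ip ξ ((RR θ x (star a * b)).mulVec η) := by
  obtain ⟨hm, hs, -⟩ := h0 θ x
  rw [VUN_ip, Matrix.mulVec_mulVec, ← (hs a ha).1, ← (hm _ _ (hs a ha).2.1 hb).1]

theorem VUN_cm (hGen : SGen) (θ : Anti) (x : SS) (hx : x ∈ Zst θ) (g : Gx) : Cm θ x (gen g) :=
  ⟨(hGen.1 g).2, hx g⟩

theorem VUN_cmE (hGen : SGen) (θ : Anti) (x : SS) (hx : x ∈ Zst θ) (i j : II)
    (hl : linked i j) : Cm θ x (gE i j) := by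
  have h := VUN_cm hGen θ x hx (Sum.inl (i, j))
  have e : gen (Sum.inl (i, j)) = gE i j := by
    unfold gen
    simp only
    exact if_pos hl
  rwa [e] at h

theorem VUN_cmY (hGen : SGen) (θ : Anti) (x : SS) (hx : x ∈ Zst θ) (k : Fin 3) :
    Cm θ x (gY k) := by
  have h := VUN_cm hGen θ x hx (Sum.inr (Sum.inl (k, false)))
  have e : gen (Sum.inr (Sum.inl (k, false))) = gY k := by
    unfold gen
    simp
  rwa [e] at h

theorem VUN_cmH (hGen : SGen) (θ : Anti) (x : SS) (hx : x ∈ Zst θ) (k l : Fin 3) :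
    Cm θ x (gH k l) :=
  VUN_cm hGen θ x hx (Sum.inr (Sum.inr (Sum.inr (k, l))))

theorem VUN_cmB (hGen : SGen) (θ : Anti) (x : SS) (hx : x ∈ Zst θ) (w : Fin hh) :
    Cm θ x (gB w) := by
  have h := VUN_cm hGen θ x hx (Sum.inr (Sum.inr (Sum.inl (w, false))))
  have e : gen (Sum.inr (Sum.inr (Sum.inl (w, false)))) = gB w := by
    unfold gen
    simp
  rwa [e] at h

theorem VUN_linked_self (i : II) : linked i i := ⟨rfl, Iff.rfl⟩

theorem VUN_linked_bas (j : II) (hj : j ≠ istar) : linked j (bas j.1) :=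
  ⟨rfl, fun h => absurd h hj, fun h => absurd h (bas_ne_istar _)⟩

theorem VUN_ne (v : Fin (hh + 1)) : istar ≠ bas v := fun h => bas_ne_istar v h.symm

/-- the columns of `V` are orthonormal -/
theorem VUN_cols (h0 : SRr0) (hGen : SGen) (θ : Anti) (x : SS) (hx : x ∈ Zst θ)
    (ξ : Fin (hh + 1) → II → ℂ) (c : Fin 3 → ℂ) (hF : IsFrame θ x ξ c) (j j' : II) :
    ip (fun i => VV θ x ξ c i j) (fun i => VV θ x ξ c i j') = if j = j' then 1 else 0 := by
  obtain ⟨f1, f2, f3, f4, -⟩ := hF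
  have cE := VUN_cmE hGen θ x hx
  have cY := VUN_cmY hGen θ x hx
  have cH := VUN_cmH hGen θ x hx
  obtain ⟨-, -, -, gs, gm, -, gyy, -, -, -, -, gye, -⟩ := hGen
  have hrep := VUN_rep h0 θ x
  obtain ⟨hm, hs, -⟩ := h0 θ x
  have hcol : ∀ j, j ≠ istar → (fun i => VV θ x ξ c i j) =
      (RR θ x (gE j (bas j.1))).mulVec (ξ j.1) := fun j hj => by
    funext i
    unfold VV
    rw [if_neg hj]
  have hcol' : (fun i => VV θ x ξ c i istar) =
      ∑ k, conj (c k) • (RR θ x (gY k)).mulVec (ξ 0) := by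
    funext i
    unfold VV
    rw [if_pos rfl, Finset.sum_apply]
    rfl
  -- mixed products
  have hmix : ∀ j, j ≠ istar → ∀ k, ip ((RR θ x (gE j (bas j.1))).mulVec (ξ j.1))
      ((RR θ x (gY k)).mulVec (ξ 0)) = 0 := by
    intro j hj k
    rw [hrep _ _ (cE _ _ (VUN_linked_bas j hj)) (cY k), gs]
    have e : gE (bas j.1) j * gY k = 0 := by
      rw [← (gye k).2, ← mul_assoc, gm, if_neg hj, zero_mul]
    rw [e]
    have hz : RR θ x 0 = 0 := by
      have h1 := ((hs 1 (h0 θ x).2.2.1.1).2.2 0).1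
      rw [zero_smul, zero_smul] at h1
      exact h1
    rw [hz, Matrix.zero_mulVec, VUN_ip_zero]
  by_cases hj : j = istar
  · by_cases hj' : j' = istar
    · rw [hj, hj', if_pos rfl, hcol', VUN_ip_sum']
      have hkl : ∀ k l, ip (conj (c k) • (RR θ x (gY k)).mulVec (ξ 0))
          (conj (c l) • (RR θ x (gY l)).mulVec (ξ 0)) =
          ((‖c k‖ ^ 2 : ℝ) : ℂ) * ((‖c l‖ ^ 2 : ℝ) : ℂ) := by
        intro k l
        rw [VUN_ip_smul, VUN_ip_smul', hrep _ _ (cY k) (cY l), gyy,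
          (hm _ _ (cH _ _) (cE _ _ (VUN_linked_self _))).1, ← Matrix.mulVec_mulVec, f2 0, f3,
          VUN_ip_smul, f1 0]
        have n : ∀ z : ℂ, z * conj z = ((‖z‖ ^ 2 : ℝ) : ℂ) := fun z => by
          rw [Complex.mul_conj, Complex.normSq_eq_norm_sq]
        rw [← n, ← n, Complex.conj_conj]
        ring
      have : ∀ k, ip (conj (c k) • (RR θ x (gY k)).mulVec (ξ 0))
          (∑ l, conj (c l) • (RR θ x (gY l)).mulVec (ξ 0)) = ((‖c k‖ ^ 2 : ℝ) : ℂ) := by
        intro k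
        rw [VUN_ip_sum]
        simp only [hkl]
        rw [← Finset.mul_sum, ← Complex.ofReal_sum, f4]
        simp
      simp only [this]
      rw [← Complex.ofReal_sum, f4]
      simp
    · have hne : j ≠ j' := fun h => hj' (h ▸ hj)
      rw [if_neg hne, hj, hcol', hcol j' hj', VUN_ip_sum']
      refine Finset.sum_eq_zero fun k _ => ?_
      rw [VUN_ip_smul', ← VUN_ip_conj, hmix j' hj' k]
      simp
  · by_cases hj' : j' = istar
    · have hne : j ≠ j' := fun h => hj (h ▸ hj')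
      rw [if_neg hne, hj', hcol', hcol j hj, VUN_ip_sum]
      refine Finset.sum_eq_zero fun k _ => ?_
      rw [VUN_ip_smul, hmix j hj k]
      simp
    · rw [hcol j hj, hcol j' hj', hrep _ _ (cE _ _ (VUN_linked_bas j hj))
        (cE _ _ (VUN_linked_bas j' hj')), gs, gm]
      by_cases hjj : j = j'
      · subst hjj
        rw [if_pos rfl, if_pos rfl, f2, f1]
      · rw [if_neg hjj, if_neg hjj]
        have hz : RR θ x 0 = 0 := by
          have h1 := ((hs 1 (h0 θ x).2.2.1.1).2.2 0).1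
          rw [zero_smul, zero_smul] at h1
          exact h1
        rw [hz, Matrix.zero_mulVec, VUN_ip_zero]

theorem VUN_unitary (h0 : SRr0) (hGen : SGen) (θ : Anti) (x : SS) (hx : x ∈ Zst θ)
    (ξ : Fin (hh + 1) → II → ℂ) (c : Fin 3 → ℂ) (hF : IsFrame θ x ξ c) :
    (VV θ x ξ c).conjTranspose * VV θ x ξ c = 1 := by
  ext j j'
  rw [Matrix.mul_apply, Matrix.one_apply]
  exact VUN_cols h0 hGen θ x hx ξ c hF j j'

theorem sVun (h0 : SRr0) (hGen : SGen) : SVun := by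
  intro θ x hx ξ c hF
  have h := congrArg Matrix.det (VUN_unitary h0 hGen θ x hx ξ c hF)
  rw [Matrix.det_mul, Matrix.det_conjTranspose, Matrix.det_one] at h
  have h2 := congrArg norm h
  rw [norm_mul, norm_star, norm_one] at h2
  have h3 : 0 ≤ ‖(VV θ x ξ c).det‖ := norm_nonneg _
  nlinarith

end

end Pool.OPP
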